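import Mathlib

/-! An analytic set that is nowhere meagre is comeagre. -/

namespace Pool.Agent.MinDeg

open Filter Set

section
variable {X : Type} [TopologicalSpace X]

/-- the points near which `S` is meagre -/
def bpU (S : Set X) : Set X := ⋃₀ {V | IsOpen V ∧ IsMeagre (V ∩ S)}

theorem bpU_open (S : Set X) : IsOpen (bpU S) := isOpen_sUnion fun _ h => h.1

theorem bpU_meagre [SecondCountableTopology X] (S : Set X) : IsMeagre (bpU S ∩ S) := by
  obtain ⟨T, h1, h2, h3⟩ := TopologicalSpace.isOpen_sUnion_countable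
    {V | IsOpen V ∧ IsMeagre (V ∩ S)} fun _ h => h.1
  rw [bpU, ← h3]
  have : (⋂ V ∈ T, (V ∩ S)ᶜ) ∈ residual X := (countable_bInter_mem h1).2 fun V hV => (h2 hV).2
  refine mem_of_superset this fun x hx => ?_
  rintro ⟨⟨V, hV, k1⟩, k2⟩
  exact mem_iInter₂.1 hx V hV ⟨k1, k2⟩

theorem bpU_cl {S : Set X} {x : X} (h : x ∉ bpU S) : x ∈ closure S := by
  by_contra hc
  refine h ⟨(closure S)ᶜ, ⟨isClosed_closure.isOpen_compl, ?_⟩, hc⟩
  have : (closure S)ᶜ ∩ S = ∅ := eq_empty_of_forall_notMem fun y hy => hy.1 (subset_closure hy.2)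
  rw [this]
  exact IsMeagre.empty

theorem bpU_step [SecondCountableTopology X] {S : Set X} {R : ℕ → Set X} (h : S ⊆ ⋃ n, R n) :
    {x | x ∉ bpU S → ∃ n, x ∉ bpU (R n)} ∈ residual X := by
  have hG : BaireMeasurableSet (⋂ n, bpU (R n)) :=
    BaireMeasurableSet.iInter fun n => (bpU_open _).baireMeasurableSet
  obtain ⟨V, hV, e⟩ := hG.residualEq_isOpen
  have m : (⋂ n, (bpU (R n) ∩ R n)ᶜ) ∈ residual X := countable_iInter_mem.2 fun n => bpU_meagre _
  have hs : V ⊆ bpU S := subset_sUnion_of_mem ⟨hV, by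
    refine mem_of_superset (inter_mem e m) ?_
    rintro x ⟨k1, k2⟩ ⟨k3, k4⟩
    obtain ⟨n, hn⟩ := mem_iUnion.1 (h k4)
    have k5 : x ∈ ⋂ n, bpU (R n) := (show (x ∈ ⋂ n, bpU (R n)) = (x ∈ V) from k1).mpr k3
    exact mem_iInter.1 k2 n ⟨mem_iInter.1 k5 n, hn⟩⟩
  refine mem_of_superset e fun x k1 hx => ?_
  by_contra hc
  refine hx (hs ((show (x ∈ ⋂ n, bpU (R n)) = (x ∈ V) from k1).mp (mem_iInter.2 fun n => ?_)))
  by_contra k
  exact hc ⟨n, k⟩

end

/-- the sequences that begin with `s` -/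
def bpN (s : List ℕ) : Set (ℕ → ℕ) := {z | ∀ i < s.length, z i = s.getD i 0}

def bpS (nx : List ℕ → ℕ) : ℕ → List ℕ
  | 0 => []
  | k + 1 => bpS nx k ++ [nx (bpS nx k)]

theorem bpS_len (nx : List ℕ → ℕ) (k : ℕ) : (bpS nx k).length = k := by
  induction k with
  | zero => rfl
  | succ k ih => simp [bpS, ih]

theorem bpS_get (nx : List ℕ → ℕ) (k : ℕ) : ∀ i < k, (bpS nx k).getD i 0 = nx (bpS nx i) := by
  induction k with
  | zero => intro i hi; omega
  | succ k ih =>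
    intro i hi
    have := bpS_len nx k
    rcases Nat.lt_succ_iff_lt_or_eq.1 hi with hi | rfl
    · rw [bpS, List.getD_append _ _ _ _ (by omega), ih i hi]
    · rw [bpS, List.getD_append_right _ _ _ _ (by omega), this]
      simp

theorem bp_an {X Z : Type} [TopologicalSpace X] [SecondCountableTopology X] [TopologicalSpace Z]
    [T3Space Z] {g : X → Z} (hg : Continuous g) {f : (ℕ → ℕ) → Z} (hf : Continuous f)
    (h : ∀ W : Set X, IsOpen W → W.Nonempty → ¬ IsMeagre (W ∩ g ⁻¹' range f)) :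
    g ⁻¹' range f ∈ residual X := by
  have st : ∀ s : List ℕ, {x | x ∉ bpU (g ⁻¹' (f '' bpN s)) →
      ∃ n, x ∉ bpU (g ⁻¹' (f '' bpN (s ++ [n])))} ∈ residual X := fun s => bpU_step (by
    rintro x ⟨z, hz, e⟩
    refine mem_iUnion.2 ⟨z s.length, z, fun i hi => ?_, e⟩
    rw [List.length_append, List.length_singleton] at hi
    rcases Nat.lt_succ_iff_lt_or_eq.1 hi with hi | rfl
    · rw [List.getD_append _ _ _ _ hi, hz i hi]
    · rw [List.getD_append_right _ _ _ _ le_rfl]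
      simp)
  refine mem_of_superset (countable_iInter_mem.2 st) fun x hx => ?_
  have hx' : ∀ s : List ℕ, ∃ n, x ∉ bpU (g ⁻¹' (f '' bpN s)) →
      x ∉ bpU (g ⁻¹' (f '' bpN (s ++ [n]))) := fun s => by
    by_cases k : x ∈ bpU (g ⁻¹' (f '' bpN s))
    · exact ⟨0, fun k' => absurd k k'⟩
    · obtain ⟨n, hn⟩ := mem_iInter.1 hx s k
      exact ⟨n, fun _ => hn⟩
  choose nx hnx using hx'
  have hk : ∀ k, x ∉ bpU (g ⁻¹' (f '' bpN (bpS nx k))) := fun k => by
    induction k with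
    | zero =>
      rintro ⟨V, ⟨k1, k2⟩, k3⟩
      refine h V k1 ⟨x, k3⟩ (k2.mono ?_)
      rintro y ⟨a, z, b⟩
      exact ⟨a, z, fun i hi => absurd hi (Nat.not_lt_zero i), b⟩
    | succ k ih => exact hnx _ ih
  refine ⟨fun i => nx (bpS nx i), ?_⟩
  by_contra hc
  obtain ⟨C, c1, c2, c3⟩ := exists_mem_nhds_isClosed_subset (isOpen_compl_singleton.mem_nhds hc)
  obtain ⟨u, u1, u2, u3⟩ := mem_nhds_iff.1 (hf.continuousAt.preimage_mem_nhds c1)
  obtain ⟨I, v, v1, v2⟩ := isOpen_pi_iff.1 u2 _ u3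
  have hs : g ⁻¹' (f '' bpN (bpS nx (I.sup id + 1))) ⊆ g ⁻¹' C := by
    rintro y ⟨z, hz, e⟩
    rw [mem_preimage, ← e]
    refine u1 (v2 fun i hi => ?_)
    have : i ≤ I.sup id := Finset.le_sup (f := id) hi
    rw [hz i (by rw [bpS_len]; omega), bpS_get nx _ i (by omega)]
    exact (v1 i hi).2
  exact c3 (closure_minimal hs (c2.preimage hg) (bpU_cl (hk _))) rfl

end Pool.Agent.MinDeg
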