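import Pool.Agent.P.MP_f8f34d_lc.W.RepDef

namespace Pool.Agent.MinDeg

open FirstOrder FirstOrder.Language

open Classical in
/-- The set of Gödel numbers of `U` is computably enumerable in `A`: it is the domain of a
function `ℕ →. ℕ` recursive in the characteristic function of `A`. -/
def CEIn (A : Set ℕ) (U : LA.Theory) : Prop :=
  ∃ f : ℕ →. ℕ, RecursiveIn {fun n => Part.some (if n ∈ A then 1 else 0)} f ∧
    ∀ m, (f m).Dom ↔ ∃ σ ∈ U, gn σ = m

/-- The space of the completions `T` of `PA + U` in which `φ` represents `A`, as a subset of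
Cantor space: `T` is given by the characteristic function of its set of Gödel numbers. -/
def Comp (U : LA.Theory) (φ : LA.Formula Unit) (A : Set ℕ) : Set (ℕ → Bool) :=
  {χ | ∃ T : LA.Theory, T.IsMaximal ∧ PA ⊆ T ∧ U ⊆ T ∧
    (∀ n : ℕ, n ∈ A ↔ (BoundedFormula.subst φ fun _ => numT n : LA.Sentence) ∈ T) ∧
    ∀ n, χ n = true ↔ ∃ σ ∈ T, gn σ = n}

end Pool.Agent.MinDeg
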