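import Pool.Agent.P.MP_f8f34d_lc.G.Tree
import Pool.Agent.P.MP_f8f34d_lc.G.Bp
import Pool.Agent.P.MP_f8f34d_lc.G.Defs
import Pool.Agent.P.MP_f8f34d_lc.C.Fin
import Pool.Agent.P.MP_f8f34d_lc.W.FinB
import Pool.Agent.P.MP_f8f34d_lc.a.PaFin

/-! The generic completion has a model of minimal degree. -/

namespace Pool.Agent.MinDeg

open FirstOrder FirstOrder.Language Pa Pool.Agent.Lib.ComputableProp Filter MeasureTheory

def tth (y : CS) : LA.Theory := @completeTheory LA ℕ (A y)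

theorem tth_max (y : CS) : (tth y).IsMaximal := @completeTheory.isMaximal LA ℕ (A y) _

theorem tth_pa {y : CS} (T : Tab y) : PA ⊆ tth y := fun σ h =>
  @Theory.realize_sentence_of_mem LA ℕ (A y) PA ((@model_PA_iff ℕ (A y) _).2 ⟨T.qa, T.lnp⟩) σ h

theorem tth_onto {T : LA.Theory} (hT : T.IsMaximal) (hP : PA ⊆ T) : ∃ y, Tab y ∧ tth y = T := by
  obtain ⟨M⟩ := hT.1
  have hM := pm_of_model (M.is_model.mono hP)
  obtain ⟨x, h1, h2⟩ := exists_tab hM.qa hM.lnp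
  refine ⟨x, h1, Set.ext fun σ => ?_⟩
  rw [mem_iff hT M.is_model, ← sat_T1_sentence, ← h2, ← h1.truth0, @sat_T1_sentence ℕ (A x)]
  rfl

theorem tth_rep {y y' : CS} (T : Tab y) (T' : Tab y') (h : ∀ ψ, ∃ β, pv ψ y = pv β y') :
    RepT (tth y) ⊆ RepT (tth y') := fun B hB => by
  obtain ⟨ψ, hψ⟩ := (@repT_iff _ ℕ (A y) (tth_max y) (@model_completeTheory LA ℕ (A y)) B).1 hB
  obtain ⟨β, hβ⟩ := h ψ
  refine (@repT_iff _ ℕ (A y') (tth_max y') (@model_completeTheory LA ℕ (A y')) B).2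
    ⟨β, fun n => ?_⟩
  rw [hψ, ← @n_df ψ ℕ (A y), ← @n_df β ℕ (A y'), ← pv_df T, ← pv_df T', hβ]

/-- the completions with the answer yes -/
def YS : Set CS := {χ : CS | ∃ T : LA.Theory, T.IsMaximal ∧ PA ⊆ T ∧ T ≠ TA ∧ χ = tg T ∧ Yes T}

theorem g_loc (sol : SolovayStmt) {X : CS} {G : Set CS} (hT : ∀ y ∈ G, Tab y) (hG : PiA X G)
    {φ : Fm} (hr : Rd X G φ) (W : Set (tt '' G)) (hW : IsOpen W) (hne : W.Nonempty) :
    ¬ IsMeagre (W ∩ Subtype.val ⁻¹' YS) := by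
  intro hm
  obtain ⟨D, d1, d2, d3⟩ := top_seq hm
  choose O o1 o2 using fun k => isOpen_induced_iff.1 (d1 k)
  obtain ⟨V0, v1, rfl⟩ := isOpen_induced_iff.1 hW
  obtain ⟨⟨_, y0, h0, rfl⟩, h1⟩ := hne
  obtain ⟨P, p1, p2, p3, p4⟩ := GCnd.shrink hT (⟨hG, Set.univ, isOpen_univ, by simp⟩ : GCnd X G G)
    v1 h0 h1
  obtain ⟨V1, w1, w2⟩ := p1.op
  have tb : ∀ y ∈ P, Tab y := fun y hy => hT y (p3 hy)
  obtain ⟨Y, y1, y2, y3⟩ := g_tree tb p1.pi (hr.mono p3) ⟨y0, p2⟩ o1 fun k V hV ⟨y, a1, a2⟩ => by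
    obtain ⟨⟨_, y', b1, rfl⟩, b2, b3⟩ := (d2 k).inter_open_nonempty (Subtype.val ⁻¹' (V ∩ V1))
      ((hV.inter w1).preimage continuous_subtype_val) ⟨⟨tt y, y, p3 a1, rfl⟩, a2, (w2 ▸ a1).2⟩
    rw [← o2 k] at b3
    exact ⟨y', w2 ▸ ⟨b1, b2.2⟩, b2.1, b3⟩
  have hc := (wide_main sol paFacts (RepT (tth (Y zz)))).insert TA
  have hu : (Set.univ : Set CS).Countable := by
    refine Set.MapsTo.countable_of_injOn (f := fun f => tth (Y f)) (fun f _ => ?_)
      (fun f _ g _ e => y3 (congrArg tg e)) hc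
    by_cases e : tth (Y f) = TA
    · exact Or.inl e
    have t1 := tb _ (y1 f).1
    have t2 := tb _ (y1 zz).1
    refine Or.inr ⟨tth_max _, tth_pa t1, (tth_rep t1 t2 (y2 f zz)).antisymm
      (tth_rep t2 t1 (y2 zz f)), fun k => ?_⟩
    exact d3 ⟨tt (Y f), Y f, p3 (y1 f).1, rfl⟩ (fun k => by rw [← o2 k]; exact (y1 f).2 k)
      ⟨p4 _ (y1 f).1, _, tth_max _, tth_pa t1, e, rfl, k⟩
  obtain ⟨x, hx⟩ := (dense_of_mem_residual (res_countable hu)).nonempty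
  exact hx trivial

theorem g_res (sol : SolovayStmt) {X : CS} {G : Set CS} (hT : ∀ y ∈ G, Tab y) (hG : PiA X G)
    {φ : Fm} (hr : Rd X G φ) : Subtype.val ⁻¹' YS ∈ residual (tt '' G) := by
  have h := g_loc sol hT hG hr
  have ha : AnalyticSet YS := c_an
  rw [AnalyticSet] at ha
  rcases ha with e | ⟨f, f1, e⟩
  · refine univ_mem' fun x => absurd ?_ (h Set.univ isOpen_univ ⟨x, trivial⟩)
    rw [e, Set.preimage_empty, Set.inter_empty]
    exact IsMeagre.empty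
  · rw [← e] at h ⊢
    exact bp_an continuous_subtype_val f1 h

theorem tt_closed {G : Set CS} (hT : ∀ y ∈ G, Tab y) (hG : IsClosed G) : IsClosed (tt '' G) := by
  refine (hG.isCompact.image_of_continuousOn (continuousOn_pi.2 fun n => ?_)).isClosed
  rcases tt_bit n with k | k
  · exact continuousOn_const.congr fun y _ => k y
  · exact (continuous_apply (ix n [])).continuousOn.congr fun y hy => k y (hT y hy)

/-- the tables of the members of `Comp U φ B` -/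
def GT (U : LA.Theory) (φ : LA.Formula Unit) (B : Set ℕ) : Set CS :=
  {y | Tab y ∧ pv (T1 (fun _ => 0) 1 φ) y = chi B ∧ ∀ n, (∃ σ ∈ U, gn σ = n) → y (ix n []) = true}

theorem tth_mem {y : CS} (T : Tab y) (σ : LA.Sentence) :
    σ ∈ tth y ↔ y (ix (gn σ) []) = true := by
  rw [← tt_gn T, tt, @tg_gn ℕ (A y)]
  rfl

theorem inst_T1 (M : Type) [LA.Structure M] (φ : LA.Formula Unit) (n : ℕ) :
    M ⊨ (BoundedFormula.subst φ fun _ => numT n : LA.Sentence) ↔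
      Sat (M := M) (T1 (fun _ => 0) 1 φ) [num n] := by
  rw [realize_inst]
  exact (sat_T1 (fun _ : Unit => 0) [(num n : M)] (fun _ => Nat.zero_lt_one) φ default).symm

theorem gt_iff {U : LA.Theory} {φ : LA.Formula Unit} {B : Set ℕ} {y : CS} (T : Tab y) :
    y ∈ GT U φ B ↔ U ⊆ tth y ∧
      ∀ n : ℕ, n ∈ B ↔ (BoundedFormula.subst φ fun _ => numT n : LA.Sentence) ∈ tth y := by
  have k : ∀ n : ℕ, (BoundedFormula.subst φ fun _ => numT n : LA.Sentence) ∈ tth y ↔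
      pv (T1 (fun _ => 0) 1 φ) y n = true := fun n => by
    let _ := A y
    rw [pv_df T, n_df]
    exact inst_T1 ℕ φ n
  simp only [k]
  constructor
  · rintro ⟨-, h1, h2⟩
    exact ⟨fun σ h => (tth_mem T σ).2 (h2 _ ⟨σ, h, rfl⟩), fun n => by simp [h1, chi]⟩
  · rintro ⟨h1, h2⟩
    refine ⟨T, funext fun n => Bool.eq_iff_iff.2 (by simp [chi, h2]), ?_⟩
    rintro _ ⟨σ, h, rfl⟩
    exact (tth_mem T σ).1 (h1 h)

theorem comp_eq (U : LA.Theory) (φ : LA.Formula Unit) (B : Set ℕ) :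
    Comp U φ B = tt '' GT U φ B := by
  ext χ
  simp only [Comp, tg_iff]
  constructor
  · rintro ⟨T, h1, h2, h3, h4, rfl⟩
    obtain ⟨y, k1, rfl⟩ := tth_onto h1 h2
    exact ⟨y, (gt_iff k1).2 ⟨h3, h4⟩, rfl⟩
  · rintro ⟨y, hy, rfl⟩
    have k := (gt_iff hy.1).1 hy
    exact ⟨tth y, tth_max y, tth_pa hy.1, k.1, k.2, rfl⟩

theorem gt_closed (U : LA.Theory) (φ : LA.Formula Unit) (B : Set ℕ) : IsClosed (GT U φ B) :=
  n_closed_tab.inter ((isClosed_eq (cont_pv _) continuous_const).inter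
    (n_closed_all fun _ => n_closed_all fun _ => n_closed_bit _ _))

theorem gt_pi {U : LA.Theory} (φ : LA.Formula Unit) {B : Set ℕ} (h : CEIn B U) :
    PiA (chi B) (GT U φ B) := by
  obtain ⟨f, h1, h2⟩ := h
  obtain ⟨F, hF, e⟩ := exists_oracleRec (RecursiveIn.iff_nat.1 h1)
  have e' : F (hat (chi B)) = f := by
    rw [← e]
    refine congrArg F (funext fun n => ?_)
    by_cases k : n ∈ B <;> simp [hat, chi, k]
  refine ⟨fun a y => Tab y ∧ pv (T1 (fun _ => 0) 1 φ) y = a ∧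
    ∀ n v, v ∈ F (hat a) n → y (ix n []) = true,
    (Pii.map (P := fun x (_ : Unit) => Tab x) pi_tab CM.id.rt (g := fun _ => ())
      (by fun_prop)).and ((Pii.eqC (CM.id.rt.pv _) CM.id.lf).and (Pii.all (Pii.all (Pii.imp
        (hF.sig.map CM.id.lf (g := fun w : (Unit × ℕ) × ℕ => (w.1.2, w.2)) (by fun_prop))
        (Pii.bit CM.id.rt (by fun_prop) (by fun_prop)))))), fun y => ?_⟩
  refine and_congr_right fun _ => and_congr_right fun _ => forall_congr' fun n => ?_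
  rw [e', ← h2, Part.dom_iff_mem]
  exact exists_imp

theorem g_main (sol : SolovayStmt) (U : LA.Theory) (φ : LA.Formula Unit) (B : Set ℕ)
    (h : CEIn B U) : Subtype.val ⁻¹' YS ∈ residual (Comp U φ B) := by
  rw [comp_eq]
  exact g_res sol (fun _ hy => hy.1) (gt_pi φ h) ⟨id, CM.id, fun _ hy => hy.2.1⟩

theorem comp_closed (U : LA.Theory) (φ : LA.Formula Unit) (B : Set ℕ) : IsClosed (Comp U φ B) := by
  rw [comp_eq]
  exact tt_closed (fun _ hy => hy.1) (gt_closed U φ B)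

end Pool.Agent.MinDeg
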