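import Pool.Agent.P.MP_f8f34d_lc.N.Pa

/-! Two Rosser rules relative to a formula: prescribed image and a flexible formula. -/

namespace Pool.Agent.MinDeg

open FirstOrder FirstOrder.Language Pa Pool.Agent.Lib.ComputableProp

/-- effectively closed relative to `X` -/
def PiA (X : CS) (P : Set CS) : Prop := ∃ Q : CS → CS → Prop,
  Pii (fun z (_ : Unit) => Q (lf z) (rt z)) ∧ ∀ y, y ∈ P ↔ Q X y

/-- the set that a formula defines on the numerals, read from a table -/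
def pv (γ : Fm) (y : CS) : CS := fun c => y (ix γ.enc [numN c])

/-- `X` is read off the set that `γ` defines -/
def Rd (X : CS) (P : Set CS) (γ : Fm) : Prop := ∃ r : CS → CS,
  CM (fun z (_ : Unit) => r z) ∧ ∀ y ∈ P, r (pv γ y) = X

theorem pv_df {y : CS} (T : Tab y) (γ : Fm) : pv γ y = @df γ ℕ (A y) :=
  funext fun c => n_bit T γ c

theorem tab_pm {y : CS} (T : Tab y) : @PM ℕ (A y) := @PM.mk ℕ (A y) T.qa T.lnp

section
variable {α : Type} [Primcodable α]

theorem CM.pv {F : CS → α → CS} (h : CM F) (γ : Fm) : CM (fun z a => pv γ (F z a)) := by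
  have hN := c_numN
  exact h.re (f := fun _ c => ix γ.enc [numN c]) (by fun_prop)

theorem CM.app {r : CS → CS} (hr : CM fun z (_ : Unit) => r z) {F : CS → α → CS} (h : CM F) :
    CM (fun z a => r (F z a)) :=
  Sig.map (P := fun z (w : Unit × ℕ × Bool) => r z w.2.1 = w.2.2) hr
    (h.comp (g := fun w : α × ℕ × Bool => w.1) (by fun_prop))
    (g := fun w : α × ℕ × Bool => ((), w.2)) (by fun_prop)

theorem Pii.two {Q : CS → CS → Prop} (h : Pii fun z (_ : Unit) => Q (lf z) (rt z))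
    {F G : CS → α → CS} (hF : CM F) (hG : CM G) : Pii fun z a => Q (F z a) (G z a) :=
  (h.map (hF.jn hG) (g := fun _ => ()) (by fun_prop)).of_iff fun _ _ => by simp

end

theorem PiA.closed {X : CS} {P : Set CS} (h : PiA X P) : IsClosed P := by
  obtain ⟨Q, h1, h2⟩ := h
  have : P = (jn X) ⁻¹' {z | Q (lf z) (rt z)} := Set.ext fun y => by simp [h2]
  rw [this]
  refine (h1.isClosed ()).preimage (continuous_pi fun i => ?_)
  unfold jn
  split_ifs
  · exact continuous_const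
  · exact continuous_apply _

theorem PiA.bit {X : CS} {P : Set CS} (h : PiA X P) (n : ℕ) (b : Bool) :
    PiA X (P ∩ {y | y n = b}) := by
  obtain ⟨Q, h1, h2⟩ := h
  exact ⟨fun a y => Q a y ∧ y n = b, h1.and (Pii.bit CM.id.rt (by fun_prop) (by fun_prop)),
    fun y => and_congr_left' (h2 y)⟩

theorem PiA.img {X : CS} {P : Set CS} (h : PiA X P) (γ : Fm) : PiA X (pv γ '' P) := by
  obtain ⟨Q, h1, h2⟩ := h
  refine ⟨fun a x => ∃ y, Q a y ∧ pv γ y = x, Pii.exC (P := fun z y (_ : Unit) =>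
    Q (lf z) y ∧ pv γ y = rt z) ((h1.two CM.id.lf.lf CM.id.rt).and
      (Pii.eqC (CM.id.rt.pv γ) CM.id.lf.rt)), fun x => ?_⟩
  simp only [Set.mem_image, h2]

theorem Rd.mono {X : CS} {P P' : Set CS} {γ : Fm} (h : Rd X P γ) (hs : P' ⊆ P) : Rd X P' γ := by
  obtain ⟨r, h1, h2⟩ := h
  exact ⟨r, h1, fun y hy => h2 y (hs hy)⟩

theorem pv_join (γ β : Fm) : ∃ δ : Fm, ∀ y, Tab y → pv δ y = jn (pv γ y) (pv β y) := by
  obtain ⟨δ, h⟩ := n_join γ β
  exact ⟨δ, fun y T => by rw [pv_df T, pv_df T, pv_df T]; exact @h ℕ (A y) (tab_pm T)⟩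

theorem Rd.join {X : CS} {P : Set CS} {γ β δ : Fm} (h : Rd X P γ) (hT : ∀ y ∈ P, Tab y)
    (hδ : ∀ y, Tab y → pv δ y = jn (pv γ y) (pv β y)) : Rd X P δ := by
  obtain ⟨r, h1, h2⟩ := h
  exact ⟨fun z => r (lf z), h1.app CM.id.lf, fun y hy => by
    beta_reduce
    rw [hδ y (hT y hy), lf_jn, h2 y hy]⟩

theorem pv_rel (γ : Fm) : ∃ ρ : Fm, ∀ y, Tab y → ∀ e b,
    Ps e.unpair.1 (pv γ y) e b → pv ρ y e = b := by
  obtain ⟨ρ, h⟩ := n_rel γ
  exact ⟨ρ, fun y T e b hb => by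
    rw [pv_df T] at hb ⊢
    exact @h ℕ (A y) (tab_pm T) e b hb⟩

/-- one more bit cuts the image down to a given class -/
theorem la {X : CS} {P Kk : Set CS} {γ : Fm} (hT : ∀ y ∈ P, Tab y) (hP : PiA X P)
    (hr : Rd X P γ) (hK : PiA X Kk) (hs : Kk ⊆ pv γ '' P) :
    ∃ ρ e, pv γ '' (P ∩ {y | pv ρ y e = true}) = Kk := by
  obtain ⟨ρ, hρ⟩ := pv_rel γ
  obtain ⟨Q, q1, q2⟩ := hP
  obtain ⟨R, r1, r2⟩ := hK
  obtain ⟨r, c1, c2⟩ := hr
  obtain ⟨i0, hi⟩ := exists_Ps (E := fun x e b => (b = false ∧ ¬ R (r x) x) ∨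
      (b = true ∧ ¬ ∃ y, Q (r x) y ∧ pv γ y = x ∧ pv ρ y e = true))
    (Sig.or (Sig.and (Sig.of_re (RE.eq (by fun_prop) (by fun_prop)))
        (r1.two (c1.app CM.id) CM.id).neg)
      (Sig.and (Sig.of_re (RE.eq (by fun_prop) (by fun_prop)))
        (Pii.exC (P := fun x y (w : ℕ × Bool) => Q (r x) y ∧ pv γ y = x ∧ pv ρ y w.1 = true)
          ((q1.two (c1.app CM.id.lf) CM.id.rt).and ((Pii.eqC (CM.id.rt.pv γ) CM.id.lf).and
            (Pii.bit (CM.id.rt.pv ρ) (by fun_prop) (by fun_prop))))).neg))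
  have e1 : (Nat.pair i0 0).unpair.1 = i0 := by rw [Nat.unpair_pair]
  refine ⟨ρ, Nat.pair i0 0, Set.Subset.antisymm ?_ fun x hx => ?_⟩
  · rintro _ ⟨y, ⟨hy, hb⟩, rfl⟩
    by_contra hc
    obtain ⟨b, h1⟩ := (hi (pv γ y) (Nat.pair i0 0)).2 false
      (Or.inl ⟨rfl, by rw [c2 y hy, ← r2]; exact hc⟩)
    have h3 := hρ y (hT y hy) (Nat.pair i0 0) b (by rw [e1]; exact h1)
    rcases (hi _ _).1 b h1 with ⟨rfl, -⟩ | ⟨-, h2⟩
    · exact absurd (h3.symm.trans hb) (by simp)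
    · exact h2 ⟨y, by rw [c2 y hy, ← q2]; exact hy, rfl, hb⟩
  · obtain ⟨y, hy, rfl⟩ := hs hx
    by_contra hc
    obtain ⟨b, h1⟩ := (hi (pv γ y) (Nat.pair i0 0)).2 true (Or.inr ⟨rfl, by
      rintro ⟨y', k1, k2, k3⟩
      rw [c2 y hy, ← q2] at k1
      exact hc ⟨y', ⟨k1, k3⟩, k2⟩⟩)
    have h3 := hρ y (hT y hy) (Nat.pair i0 0) b (by rw [e1]; exact h1)
    rcases (hi _ _).1 b h1 with ⟨-, h2⟩ | ⟨rfl, -⟩
    · rw [c2 y hy, ← r2] at h2
      exact h2 hx
    · exact hc ⟨y, ⟨hy, h3⟩, rfl⟩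

theorem cont_pv (γ : Fm) : Continuous (pv γ) := continuous_pi fun _ => continuous_apply _

/-- a formula that is flexible over `γ` on `P` -/
theorem lb {X : CS} {P : Set CS} {γ : Fm} (hT : ∀ y ∈ P, Tab y) (hP : PiA X P)
    (hr : Rd X P γ) : ∃ β : Fm, ∀ y ∈ P, ∀ C : CS, ∃ y' ∈ P, pv γ y' = pv γ y ∧ pv β y' = C := by
  obtain ⟨ρ, hρ⟩ := pv_rel γ
  have hcl := hP.closed
  obtain ⟨Q, q1, q2⟩ := hP
  obtain ⟨r, c1, c2⟩ := hr
  let w : ℕ → List Bool := fun e => relS (e.unpair.2)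
  obtain ⟨i0, hi⟩ := exists_Ps (E := fun x e b => ∀ y : CS, (Q (r x) y ∧ pv γ y = x ∧
      ∀ j < (w e).length,
      pv ρ y (Nat.pair e.unpair.1 (Nat.pair (Encodable.encode (n_tk (w e) j)) 0)) =
        (w e).getD j false) → pv ρ y e = !b)
    (Sig.all (P := fun x y (u : ℕ × Bool) => (Q (r x) y ∧ pv γ y = x ∧ ∀ j < (w u.1).length,
      pv ρ y (Nat.pair u.1.unpair.1 (Nat.pair (Encodable.encode (n_tk (w u.1) j)) 0)) =
        (w u.1).getD j false) → pv ρ y u.1 = !u.2)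
      (Sig.imp ((q1.two (c1.app CM.id.lf) CM.id.rt).and ((Pii.eqC (CM.id.rt.pv γ) CM.id.lf).and
        (Pii.all (Pii.imp (Sig.of_re (RE.lt (by fun_prop) (by fun_prop)))
          (Pii.bit (CM.id.rt.pv ρ) (by fun_prop) (by fun_prop))))))
        ((CM.id.rt.pv ρ).bit (by fun_prop) (by fun_prop))))
  let ee : List Bool → ℕ := fun σ => Nat.pair i0 (Nat.pair (Encodable.encode σ) 0)
  obtain ⟨β, hβ⟩ := n_rel0 ρ (E := fun x n b => ∃ σ : List Bool,
      (∀ j < n, x (ee (n_tk σ j)) = σ.getD j false) ∧ x (ee (n_tk σ n)) = b)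
    (Sig.ex (Sig.and (Sig.forall_lt (by fun_prop) (Sig.bit (by fun_prop) (by fun_prop)))
      (Sig.bit (by fun_prop) (by fun_prop))))
  refine ⟨β, fun y0 hy0 C => ?_⟩
  obtain ⟨y, hy⟩ := n_limit (F := fun n => {y | y ∈ P ∧ pv γ y = pv γ y0 ∧
      ∀ j < n, pv ρ y (ee (pre C j)) = C j})
    (fun n y hy => ⟨hy.1, hy.2.1, fun j hj => hy.2.2 j (by omega)⟩) (fun n => by
      induction n with
      | zero => exact ⟨y0, hy0, rfl, fun j hj => absurd hj (Nat.not_lt_zero j)⟩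
      | succ n ih =>
        by_contra hc
        obtain ⟨y, T, hg, hy⟩ := ih
        have e1 : w (ee (pre C n)) = pre C n := by
          simp only [w, ee, Nat.unpair_pair, relS_pair]
        have e2 : (ee (pre C n)).unpair.1 = i0 := by simp only [ee, Nat.unpair_pair]
        obtain ⟨b, h1⟩ := (hi (pv γ y0) (ee (pre C n))).2 (C n) fun x hx => by
          rw [e1, e2, pre_length, c2 y0 hy0, ← q2] at hx
          rw [Bool.eq_not_iff]
          intro hn
          refine hc ⟨x, hx.1, hx.2.1, fun j hj => ?_⟩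
          rcases Nat.lt_succ_iff_lt_or_eq.1 hj with hj | rfl
          · have := hx.2.2 j hj
            rwa [n_tk_pre C hj.le, pre_getD C hj] at this
          · exact hn
        have h2 := (hi _ _).1 b h1 y (by
          rw [e1, e2, pre_length, c2 y0 hy0, ← q2]
          exact ⟨T, hg, fun j hj => by rw [n_tk_pre C hj.le, pre_getD C hj]; exact hy j hj⟩)
        have h3 := hρ y (hT y T) (ee (pre C n)) b (by rw [e2, hg]; exact h1)
        rw [h3] at h2
        simp at h2)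
    (fun n => hcl.inter ((isClosed_eq (cont_pv γ) continuous_const).inter
      (n_closed_all fun j => n_closed_all fun _ => n_closed_bit _ _)))
  have T := hT y (hy 0).1
  refine ⟨y, (hy 0).1, (hy 0).2.1, ?_⟩
  rw [pv_df T]
  let _ := A y
  have h : PM ℕ := tab_pm T
  have hO : ∀ j, df ρ ℕ (ee (pre C j)) = C j := fun j => by
    rw [← pv_df T]; exact (hy (j + 1)).2.2 j (by omega)
  have key : ∀ n b, (∃ σ : List Bool, (∀ j < n, df ρ ℕ (ee (n_tk σ j)) = σ.getD j false) ∧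
      df ρ ℕ (ee (n_tk σ n)) = b) → b = C n := by
    rintro n b ⟨σ, a1, a2⟩
    have : ∀ j, j ≤ n → ∀ i < j, σ.getD i false = C i := by
      intro j
      induction j with
      | zero => intro _ i hi; omega
      | succ j ih =>
        intro hj i hi
        rcases Nat.lt_succ_iff_lt_or_eq.1 hi with hi | rfl
        · exact ih (by omega) i hi
        · rw [← a1 i (by omega), n_tk, pre_congr (ih (by omega)), hO]
    rw [← a2, n_tk, pre_congr (this n le_rfl), hO]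
  refine funext fun n => hβ ℕ h n (fun H => ?_) _ ⟨pre C n, fun j hj => ?_, ?_⟩
  · exact absurd ((key n _ H.1).trans (key n _ H.2).symm) (by simp)
  · rw [n_tk_pre C hj.le, hO, pre_getD C hj]
  · rw [n_tk_pre C le_rfl, hO]

end Pool.Agent.MinDeg
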