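import Pool.Agent.P.MP_f8f34d_lc.G.Ros
import Pool.Agent.P.MP_f8f34d_lc.C.Aux1

/-! A comeagre set of completions holds a perfect family with one family of represented sets. -/

namespace Pool.Agent.MinDeg

open FirstOrder FirstOrder.Language Pa Pool.Agent.Lib.ComputableProp

/-- the theory of a table -/
noncomputable def tt (y : CS) : CS := tg (@completeTheory LA ℕ (A y))

theorem tt_gn {y : CS} (T : Tab y) (σ : LA.Sentence) : tt y (gn σ) = y (ix (gn σ) []) := by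
  rw [Bool.eq_iff_iff, tt, @tg_gn ℕ (A y), ← @sat_T1_sentence ℕ (A y), T.truth0, enc_T1]

theorem tt_bit (n : ℕ) : (∀ y, tt y n = false) ∨ ∀ y, Tab y → tt y n = y (ix n []) := by
  by_cases h : ∃ σ : LA.Sentence, gn σ = n
  · obtain ⟨σ, rfl⟩ := h
    exact Or.inr fun y T => tt_gn T σ
  · refine Or.inl fun y => ?_
    simp only [tt, tg, decide_eq_false_iff_not]
    rintro ⟨σ, -, e⟩
    exact h ⟨σ, e⟩

theorem pv_tt (γ : Fm) (c : ℕ) : ∃ n, ∀ y, Tab y → pv γ y c = tt y n := by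
  obtain ⟨ψ, hψ⟩ := n_inst γ c
  refine ⟨gn (T2 ψ 0), fun y T => ?_⟩
  rw [Bool.eq_iff_iff, tt, @tg_gn ℕ (A y), @sat_T2_sentence ℕ (A y), @hψ ℕ (A y), pv_df T,
    @n_df γ ℕ (A y)]

/-- conditions -/
structure GCnd (X : CS) (G P : Set CS) : Prop where
  pi : PiA X P
  op : ∃ V, IsOpen V ∧ P = G ∩ tt ⁻¹' V

variable {X : CS} {G P : Set CS}

theorem GCnd.sub (h : GCnd X G P) : P ⊆ G := by
  obtain ⟨V, -, rfl⟩ := h.op
  exact Set.inter_subset_left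

theorem GCnd.tbit (hT : ∀ y ∈ G, Tab y) (h : GCnd X G P) (n : ℕ) (b : Bool) :
    GCnd X G (P ∩ {y | tt y n = b}) := by
  refine ⟨?_, ?_⟩
  · rcases tt_bit n with k | k
    · cases b with
      | false =>
        have : P ∩ {y | tt y n = false} = P := Set.inter_eq_left.2 fun y _ => k y
        rw [this]
        exact h.pi
      | true =>
        have : P ∩ {y | tt y n = true} = (P ∩ {y | y 0 = true}) ∩ {y | y 0 = false} := by
          ext y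
          cases hy : y 0 <;> simp [k, hy]
        rw [this]
        exact (h.pi.bit _ _).bit _ _
    · have : P ∩ {y | tt y n = b} = P ∩ {y | y (ix n []) = b} :=
        Set.ext fun y => and_congr_right fun hy => by
          simp only [Set.mem_ofPred_eq, k y (hT y (h.sub hy))]
      rw [this]
      exact h.pi.bit _ _
  · obtain ⟨V, h1, rfl⟩ := h.op
    have : IsOpen ((fun x : CS => x n) ⁻¹' {b}) :=
      (isOpen_discrete {b}).preimage (continuous_apply n)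
    exact ⟨V ∩ (fun x : CS => x n) ⁻¹' {b}, h1.inter this, Set.inter_assoc _ _ _⟩

theorem GCnd.pbit (hT : ∀ y ∈ G, Tab y) (h : GCnd X G P) (γ : Fm) (c : ℕ) (b : Bool) :
    GCnd X G (P ∩ {y | pv γ y c = b}) := by
  obtain ⟨n, k⟩ := pv_tt γ c
  have : P ∩ {y | pv γ y c = b} = P ∩ {y | tt y n = b} :=
    Set.ext fun y => and_congr_right fun hy => by
      simp only [Set.mem_ofPred_eq, k y (hT y (h.sub hy))]
  rw [this]
  exact h.tbit hT n b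

theorem GCnd.shrink (hT : ∀ y ∈ G, Tab y) (h : GCnd X G P) {O : Set CS} (hO : IsOpen O) {y0 : CS}
    (h0 : y0 ∈ P) (h1 : tt y0 ∈ O) : ∃ P', GCnd X G P' ∧ y0 ∈ P' ∧ P' ⊆ P ∧ ∀ y ∈ P', tt y ∈ O := by
  obtain ⟨n, hn⟩ := exists_pre_of_isOpen hO h1
  have key : ∀ m, GCnd X G (P ∩ {y | ∀ k < m, tt y k = tt y0 k}) := fun m => by
    induction m with
    | zero => simpa using h
    | succ m ih =>
      have : P ∩ {y | ∀ k < m + 1, tt y k = tt y0 k} =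
          (P ∩ {y | ∀ k < m, tt y k = tt y0 k}) ∩ {y | tt y m = tt y0 m} := by
        ext y
        simp only [Set.mem_inter_iff, Set.mem_ofPred_eq, Nat.forall_lt_succ_right, and_assoc]
      rw [this]
      exact ih.tbit hT _ _
  exact ⟨_, key n, ⟨h0, fun _ _ => rfl⟩, Set.inter_subset_left,
    fun y hy => hn n le_rfl _ (ext_pre_iff.2 hy.2)⟩

theorem GCnd.copy (hT : ∀ y ∈ G, Tab y) (h : GCnd X G P) {γ : Fm} (hr : Rd X P γ) {D : Set CS}
    (hD : PiA X D) (hs : ∀ d ∈ D, lf d ∈ pv γ '' P) : ∃ P' δ β, GCnd X G P' ∧ P' ⊆ P ∧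
      (∀ y, Tab y → pv δ y = jn (pv γ y) (pv β y)) ∧ pv δ '' P' = D := by
  have hT' : ∀ y ∈ P, Tab y := fun y hy => hT y (h.sub hy)
  obtain ⟨β, hβ⟩ := lb hT' h.pi hr
  obtain ⟨δ, hδ⟩ := pv_join γ β
  obtain ⟨ρ, e, k⟩ := la hT' h.pi (hr.join hT' hδ) hD fun d hd => by
    obtain ⟨y, hy, e⟩ := hs d hd
    obtain ⟨y', k1, k2, k3⟩ := hβ y hy (rt d)
    exact ⟨y', k1, by rw [hδ y' (hT' y' k1), k2, k3, e, top_jn_eta]⟩
  exact ⟨_, δ, β, h.pbit hT ρ e true, Set.inter_subset_left, hδ, k⟩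

/-- a family of conditions with one common image -/
def GInv (X : CS) (G : Set CS) (a : List Bool → Set CS × Fm) : Prop :=
  (∀ i, GCnd X G (a i).1 ∧ Rd X (a i).1 (a i).2) ∧
    ∃ D : Set CS, D.Nonempty ∧ ∀ i, pv (a i).2 '' (a i).1 = D

def GE (p q : Set CS × Fm) (y y' : CS) : Prop := y ∈ p.1 ∧ y' ∈ q.1 ∧ pv p.2 y = pv q.2 y'

def GRef (a a' : List Bool → Set CS × Fm) : Prop :=
  ∀ i j y y', GE (a' i) (a' j) y y' → GE (a i) (a j) y y'

def GGoal (O : Set CS) (ψ : Fm) (a : List Bool → Set CS × Fm) (i : List Bool) : Prop :=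
  (∀ y ∈ (a i).1, tt y ∈ O) ∧ ∀ j, ∃ β, ∀ y y', GE (a i) (a j) y y' → pv ψ y = pv β y'

theorem GGoal.mono {O : Set CS} {ψ : Fm} {a a' : List Bool → Set CS × Fm} {i : List Bool}
    (h : GGoal O ψ a i) (k : GRef a a') : GGoal O ψ a' i :=
  ⟨fun y hy => h.1 y (k i i y y ⟨hy, hy, rfl⟩).1, fun j =>
    (h.2 j).imp fun _ hβ y y' e => hβ y y' (k i j y y' e)⟩

theorem g_act (hT : ∀ y ∈ G, Tab y) {a : List Bool → Set CS × Fm} (h : GInv X G a) {O : Set CS}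
    (hO : IsOpen O) (hd : ∀ V, IsOpen V → (∃ y ∈ G, tt y ∈ V) → ∃ y ∈ G, tt y ∈ V ∧ tt y ∈ O)
    (ψ : Fm) (i0 : List Bool) : ∃ a', GInv X G a' ∧ GRef a a' ∧ GGoal O ψ a' i0 := by
  obtain ⟨h1, D, ⟨d, hd0⟩, h2⟩ := h
  obtain ⟨V, v1, v2⟩ := (h1 i0).1.op
  obtain ⟨y1, k1, -⟩ : d ∈ pv (a i0).2 '' (a i0).1 := (h2 i0).symm ▸ hd0
  obtain ⟨y0, k2, k3, k4⟩ := hd V v1 ⟨y1, (v2 ▸ k1).1, (v2 ▸ k1).2⟩
  obtain ⟨P, p1, p2, p3, p4⟩ := (h1 i0).1.shrink hT hO (y0 := y0) (v2 ▸ ⟨k2, k3⟩) k4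
  obtain ⟨δ, hδ⟩ := pv_join (a i0).2 ψ
  have key : ∀ j, ∃ P' δ' β, GCnd X G P' ∧ P' ⊆ (a j).1 ∧
      (∀ y, Tab y → pv δ' y = jn (pv (a j).2 y) (pv β y)) ∧ pv δ' '' P' = pv δ '' P ∧
      (j = i0 → β = ψ ∧ P' = P) := fun j => by
    by_cases e : j = i0
    · subst e
      exact ⟨P, δ, ψ, p1, p3, hδ, rfl, fun _ => ⟨rfl, rfl⟩⟩
    · obtain ⟨P', δ', β, q1, q2, q3, q4⟩ := (h1 j).1.copy hT (h1 j).2 (p1.pi.img δ) (by
        rintro _ ⟨y, hy, rfl⟩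
        rw [hδ y (hT y (p1.sub hy)), lf_jn, h2 j, ← h2 i0]
        exact ⟨y, p3 hy, rfl⟩)
      exact ⟨P', δ', β, q1, q2, q3, q4, fun k => absurd k e⟩
  choose P' δ' β q1 q2 q3 q4 q5 using key
  have tb : ∀ j, ∀ y ∈ P' j, Tab y := fun j y hy => hT y ((q1 j).sub hy)
  refine ⟨fun j => (P' j, δ' j), ⟨fun j => ⟨q1 j, ((h1 j).2.mono (q2 j)).join (tb j) (q3 j)⟩,
    pv δ '' P, ⟨_, y0, p2, rfl⟩, q4⟩, ?_, ?_, fun j => ⟨β j, ?_⟩⟩
  · rintro i j y y' ⟨e1, e2, e3⟩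
    refine ⟨q2 i e1, q2 j e2, ?_⟩
    have := congrArg lf e3
    rwa [q3 i y (tb i y e1), q3 j y' (tb j y' e2), lf_jn, lf_jn] at this
  · intro y hy
    exact p4 y ((q5 i0 rfl).2 ▸ hy)
  · rintro y y' ⟨e1, e2, e3⟩
    have := congrArg rt e3
    rwa [q3 i0 y (tb i0 y e1), q3 j y' (tb j y' e2), rt_jn, rt_jn, (q5 i0 rfl).1] at this

theorem g_all (hT : ∀ y ∈ G, Tab y) {a : List Bool → Set CS × Fm} (h : GInv X G a) {O : Set CS}
    (hO : IsOpen O) (hd : ∀ V, IsOpen V → (∃ y ∈ G, tt y ∈ V) → ∃ y ∈ G, tt y ∈ V ∧ tt y ∈ O)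
    (ψ : Fm) (F : Finset (List Bool)) :
    ∃ a', GInv X G a' ∧ GRef a a' ∧ ∀ i ∈ F, GGoal O ψ a' i := by
  induction F using Finset.induction_on with
  | empty => exact ⟨a, h, fun _ _ _ _ e => e, fun i hi => absurd hi (Finset.notMem_empty i)⟩
  | insert i F _ ih =>
    obtain ⟨a1, k1, k2, k3⟩ := ih
    obtain ⟨a2, l1, l2, l3⟩ := g_act hT k1 hO hd ψ i
    refine ⟨a2, l1, fun i j y y' e => k2 i j y y' (l2 i j y y' e), fun j hj => ?_⟩
    rcases Finset.mem_insert.1 hj with rfl | hj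
    · exact l3
    · exact (k3 j hj).mono l2

theorem g_split (hT : ∀ y ∈ G, Tab y) {a : List Bool → Set CS × Fm} (h : GInv X G a) :
    ∃ a', GInv X G a' ∧
      (∀ b s c t y y', GE (a' (b :: s)) (a' (c :: t)) y y' → GE (a s) (a t) y y') ∧
      ∀ s, ∃ n, ∀ b, ∀ y ∈ (a' (b :: s)).1, tt y n = b := by
  obtain ⟨h1, D, hd0, h2⟩ := h
  have key : ∀ s, ∃ n, ∀ b, pv (a s).2 '' ((a s).1 ∩ {y | tt y n = b}) = D := fun s => by
    have tb : ∀ y ∈ (a s).1, Tab y := fun y hy => hT y ((h1 s).1.sub hy)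
    obtain ⟨β, hβ⟩ := lb tb (h1 s).1.pi (h1 s).2
    obtain ⟨n, hn⟩ := pv_tt β 0
    refine ⟨n, fun b => ?_⟩
    rw [← h2 s]
    refine Set.Subset.antisymm (Set.image_mono Set.inter_subset_left) ?_
    rintro _ ⟨y, hy, rfl⟩
    obtain ⟨y', k1, k2, k3⟩ := hβ y hy fun _ => b
    exact ⟨y', ⟨k1, by rw [Set.mem_ofPred_eq, ← hn y' (tb y' k1), k3]⟩, k2⟩
  choose n hn using key
  let a' : List Bool → Set CS × Fm := fun l =>
    List.casesOn l (a []) fun b s => ((a s).1 ∩ {y | tt y (n s) = b}, (a s).2)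
  refine ⟨a', ⟨fun l => ?_, D, hd0, fun l => ?_⟩, fun b s c t y y' e => ⟨e.1.1, e.2.1.1, e.2.2⟩,
    fun s => ⟨n s, fun b y hy => hy.2⟩⟩
  · cases l with
    | nil => exact h1 []
    | cons b s => exact ⟨(h1 s).1.tbit hT _ _, (h1 s).2.mono Set.inter_subset_left⟩
  · cases l with
    | nil => exact h2 []
    | cons b s => exact hn s b

def gbr (f : CS) : ℕ → List Bool
  | 0 => []
  | m + 1 => f m :: gbr f m

theorem gbr_len (f : CS) (m : ℕ) : (gbr f m).length = m := by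
  induction m with
  | zero => rfl
  | succ m ih => simp [gbr, ih]

theorem gbr_congr {f g : CS} {m : ℕ} (h : ∀ i < m, f i = g i) : gbr f m = gbr g m := by
  induction m with
  | zero => rfl
  | succ m ih => rw [gbr, gbr, h m (by omega), ih fun i hi => h i (by omega)]

theorem g_tree (hT : ∀ y ∈ G, Tab y) (hG : PiA X G) {φ : Fm} (hr : Rd X G φ) (hne : G.Nonempty)
    {O : ℕ → Set CS} (hO : ∀ k, IsOpen (O k))
    (hd : ∀ k V, IsOpen V → (∃ y ∈ G, tt y ∈ V) → ∃ y ∈ G, tt y ∈ V ∧ tt y ∈ O k) :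
    ∃ Y : CS → CS, (∀ f, Y f ∈ G ∧ ∀ k, tt (Y f) ∈ O k) ∧
      (∀ f g ψ, ∃ β, pv ψ (Y f) = pv β (Y g)) ∧ Function.Injective fun f => tt (Y f) := by
  have step : ∀ (m : ℕ) (a : {a // GInv X G a}), ∃ a' : {a // GInv X G a},
      (∀ b s c t y y', GE (a'.1 (b :: s)) (a'.1 (c :: t)) y y' → GE (a.1 s) (a.1 t) y y') ∧
      (∀ s, ∃ n, ∀ b, ∀ y ∈ (a'.1 (b :: s)).1, tt y n = b) ∧
      ∀ s : List Bool, s.length = m + 1 → GGoal (O m) (dec m) a'.1 s := fun m a => by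
    obtain ⟨a1, k1, k2, k3⟩ := g_split hT a.2
    obtain ⟨a2, l1, l2, l3⟩ := g_all hT k1 (hO m) (hd m) (dec m)
      (List.finite_length_eq Bool (m + 1)).toFinset
    exact ⟨⟨a2, l1⟩, fun b s c t y y' e => k2 b s c t y y' (l2 _ _ y y' e),
      fun s => (k3 s).imp fun n hn b y hy => hn b y (l2 _ _ y y ⟨hy, hy, rfl⟩).1,
      fun s hs => l3 s ((Set.Finite.mem_toFinset _).2 hs)⟩
  choose F f1 f2 f3 using step
  let a : ℕ → {a // GInv X G a} := fun m => Nat.rec ⟨fun _ => (G, φ),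
    fun _ => ⟨⟨hG, Set.univ, isOpen_univ, by simp⟩, hr⟩, pv φ '' G, hne.image _, fun _ => rfl⟩ F m
  have ea : ∀ m, a (m + 1) = F m (a m) := fun _ => rfl
  have dn : ∀ f g m y y', GE ((a (m + 1)).1 (gbr f (m + 1))) ((a (m + 1)).1 (gbr g (m + 1))) y y' →
      GE ((a m).1 (gbr f m)) ((a m).1 (gbr g m)) y y' := fun f g m y y' e =>
    f1 m (a m) _ _ _ _ y y' e
  obtain ⟨y0, h0⟩ := n_limit (F := fun m => ((a m).1 (gbr zz m)).1)
    (fun m y hy => (dn zz zz m y y ⟨hy, hy, rfl⟩).1) (fun m => by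
      obtain ⟨-, D, k1, k2⟩ := (a m).2
      exact (k2 (gbr zz m) ▸ k1 : (pv _ '' _).Nonempty).of_image)
    fun m => ((a m).2.1 _).1.pi.closed
  have hY : ∀ f : CS, ∃ y, ∀ m, GE ((a m).1 (gbr zz m)) ((a m).1 (gbr f m)) y0 y := fun f =>
    n_limit (F := fun m => {y | GE ((a m).1 (gbr zz m)) ((a m).1 (gbr f m)) y0 y})
      (fun m y hy => dn zz f m y0 y hy) (fun m => by
        obtain ⟨-, D, -, k2⟩ := (a m).2
        obtain ⟨y, k3, k4⟩ : pv ((a m).1 (gbr zz m)).2 y0 ∈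
            pv ((a m).1 (gbr f m)).2 '' ((a m).1 (gbr f m)).1 := by
          rw [k2, ← k2 (gbr zz m)]
          exact ⟨y0, h0 m, rfl⟩
        exact ⟨y, h0 m, k3, k4.symm⟩)
      fun m => isClosed_const.inter (((a m).2.1 _).1.pi.closed.inter
        (isClosed_eq continuous_const (cont_pv _)))
  choose Y hY using hY
  have hE : ∀ f g m, GE ((a m).1 (gbr f m)) ((a m).1 (gbr g m)) (Y f) (Y g) := fun f g m =>
    ⟨(hY f m).2.1, (hY g m).2.1, (hY f m).2.2.symm.trans (hY g m).2.2⟩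
  refine ⟨Y, fun f => ⟨(hY f 0).2.1, fun k =>
    (f3 k (a k) _ (gbr_len f (k + 1))).1 _ (hY f (k + 1)).2.1⟩, fun f g ψ => ?_, fun f g e => ?_⟩
  · obtain ⟨β, hβ⟩ := (f3 ψ.enc (a ψ.enc) _ (gbr_len f (ψ.enc + 1))).2 (gbr g (ψ.enc + 1))
    exact ⟨β, by simpa only [dec_enc] using hβ _ _ (hE f g (ψ.enc + 1))⟩
  · funext m
    induction m using Nat.strong_induction_on with
    | _ m ih =>
      obtain ⟨n, hn⟩ := f2 m (a m) (gbr f m)
      have k1 := hn (f m) (Y f) (hY f (m + 1)).2.1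
      have k2 := hn (g m) (Y g) (by
        rw [gbr_congr ih]
        exact (hY g (m + 1)).2.1)
      rw [← k1, ← k2]
      exact congrFun e n

end Pool.Agent.MinDeg
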